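import Pool.Agent.Helper94.Tot.Goals
import Pool.Agent.Helper56.Mertens

set_option autoImplicit false

open Finset Filter Topology

namespace Pool.Agent.Helper31.Tot

open Pool.Agent.Helper94.Tot Helper56

theorem ax_bound : ∃ C : ℝ, 0 < C ∧ ∀ n : ℕ, |ax n - Real.log (Real.log n)| ≤ C := by
  have h : Tendsto (fun n : ℕ => ax n - Real.log (Real.log n)) atTop
      (𝓝 Real.eulerMascheroniConstant) :=
    ax_sub_loglog_tendsto.comp tendsto_natCast_atTop_atTop
  have hb := Metric.isBounded_range_of_tendsto _ h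
  obtain ⟨C, hC⟩ := hb.exists_norm_le
  refine ⟨|C| + 1, by positivity, fun n => ?_⟩
  have h1 := hC _ (Set.mem_range_self n)
  rw [Real.norm_eq_abs] at h1
  have := le_abs_self C
  linarith

theorem ax_nat (n : ℕ) : ax (n : ℝ) = ∑ k ∈ Ioc 0 n, al k := by
  unfold ax
  rw [Nat.floor_natCast]

theorem ax_sub {u v : ℕ} (h : u ≤ v) : ax (v : ℝ) - ax u = ∑ k ∈ Ioc u v, al k := by
  rw [ax_nat, ax_nat, sub_eq_iff_eq_add, ← Finset.sum_Ioc_consecutive al (Nat.zero_le u) h]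
  ring

theorem prod_eq {u v : ℕ} (h : u ≤ v) :
    ∏ p ∈ (Ioc u v).filter Nat.Prime, (1 - 1 / (p : ℝ)) = Real.exp (-(ax (v : ℝ) - ax u)) := by
  rw [ax_sub h, ← Finset.sum_neg_distrib, Real.exp_sum, Finset.prod_filter]
  apply Finset.prod_congr rfl
  intro p _
  unfold al
  split_ifs with hp
  · have h2 : (2 : ℝ) ≤ p := by exact_mod_cast hp.two_le
    rw [neg_neg, Real.exp_log]
    rw [sub_pos, div_lt_one (by linarith)]
    linarith
  · simp

theorem pf_MP : StmtMP := by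
  obtain ⟨C, hC0, hC⟩ := ax_bound
  refine ⟨Real.exp (2 * C), Real.exp_pos _, fun u v hu huv => ?_⟩
  rw [prod_eq huv]
  have hlu : 0 < Real.log u := Real.log_pos (by exact_mod_cast (by omega : 1 < u))
  have hlv : 0 < Real.log v := Real.log_pos (by exact_mod_cast (by omega : 1 < v))
  have h1 := abs_le.1 (hC u)
  have h2 := abs_le.1 (hC v)
  have h3 : Real.exp (2 * C) * (Real.log u / Real.log v) =
      Real.exp (2 * C + (Real.log (Real.log u) - Real.log (Real.log v))) := by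
    rw [Real.exp_add, Real.exp_sub, Real.exp_log hlu, Real.exp_log hlv]
  rw [h3]
  apply Real.exp_le_exp.2
  linarith [h1.1, h1.2, h2.1, h2.2]

theorem sq_sum (z : ℕ) (hz : 4 ≤ z) :
    ∑ n ∈ Ioc 4 z, 2 * (1 / (n : ℝ)) ^ 2 ≤ (1 : ℝ) / 2 - 2 / (z : ℝ) := by
  induction z, hz using Nat.le_induction with
  | base => norm_num
  | succ z hz ih =>
    rw [Finset.sum_Ioc_succ_top (by omega)]
    have hz0 : (0 : ℝ) < z := by exact_mod_cast (by omega : 0 < z)
    have h1 : 2 * (1 / ((z + 1 : ℕ) : ℝ)) ^ 2 ≤ 2 / z - 2 / ((z + 1 : ℕ) : ℝ) := by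
      push_cast
      rw [div_sub_div _ _ hz0.ne' (by positivity), one_div, inv_pow, ← div_eq_mul_inv,
        div_le_div_iff₀ (by positivity) (by positivity)]
      nlinarith
    linarith

theorem Sz_lower (z : ℕ) : ax (z : ℝ) - ax ((4 : ℕ) : ℝ) - 1 / 2 ≤
    Pool.Agent.Helper90.Twin.Sz z := by
  have hnn : 0 ≤ Pool.Agent.Helper90.Twin.Sz z := by
    unfold Pool.Agent.Helper90.Twin.Sz
    exact Finset.sum_nonneg fun p _ => by positivity
  rcases le_total z 4 with h | h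
  · have h1 : ax (z : ℝ) ≤ ax ((4 : ℕ) : ℝ) := ax_mono (Nat.cast_le.2 h)
    have h2 : ax (z : ℝ) - ax ((4 : ℕ) : ℝ) ≤ 0 := sub_nonpos.2 h1
    have h3 : ax (z : ℝ) - ax ((4 : ℕ) : ℝ) - 1 / 2 ≤ 0 := by
      generalize ax (z : ℝ) - ax ((4 : ℕ) : ℝ) = t at h2
      linarith
    exact h3.trans hnn
  · rw [ax_sub h]
    have h1 : ∑ k ∈ Ioc 4 z, al k ≤
        ∑ k ∈ Ioc 4 z, ((if k.Prime then 1 / (k : ℝ) else 0) + 2 * (1 / (k : ℝ)) ^ 2) := by
      apply Finset.sum_le_sum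
      intro k _
      by_cases hk : k.Prime
      · rw [if_pos hk]
        exact al_upper hk
      · rw [if_neg hk]
        unfold al
        rw [if_neg hk]
        positivity
    rw [Finset.sum_add_distrib, ← Finset.sum_filter] at h1
    have h2 : (Ioc 4 z).filter Nat.Prime = Pool.Agent.Helper90.Twin.Ps z := by
      unfold Pool.Agent.Helper90.Twin.Ps
      rfl
    rw [h2] at h1
    have h3 := sq_sum z h
    have h4 : (0 : ℝ) ≤ 2 / z := by positivity
    have h5 : ∑ k ∈ Pool.Agent.Helper90.Twin.Ps z, 1 / (k : ℝ) =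
        Pool.Agent.Helper90.Twin.Sz z := rfl
    rw [h5] at h1
    linarith

theorem pf_Sz : StmtSz := by
  obtain ⟨C, hC0, hC⟩ := ax_bound
  refine ⟨Real.exp (C + ax ((4 : ℕ) : ℝ) + 1 / 2), Real.exp_pos _, fun z hz => ?_⟩
  have hlz : 0 < Real.log z := Real.log_pos (by exact_mod_cast (by omega : 1 < z))
  have h1 := abs_le.1 (hC z)
  have h2 := Sz_lower z
  have h3 : Real.exp (C + ax ((4 : ℕ) : ℝ) + 1 / 2) / Real.log z =
      Real.exp (C + ax ((4 : ℕ) : ℝ) + 1 / 2 - Real.log (Real.log z)) := by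
    rw [Real.exp_sub, Real.exp_log hlz]
  rw [h3]
  apply Real.exp_le_exp.2
  linarith [h1.1, h1.2]

end Pool.Agent.Helper31.Tot
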